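import Pool.Agent.Lib_MP_a29272_s.Poly

/-!
# The polynomial `Re (|y| + i |z|)^(2M)` on `ℝ^ι`, `x = (z, y)`, and its derivative bounds
-/

namespace Pool.Agent.LibMPa29272s

open Set Metric Finset
open scoped ContDiff RealInnerProductSpace

variable {ι : Type*} [Fintype ι] [DecidableEq ι]

omit [Fintype ι] [DecidableEq ι] in
/-- Complex square roots of `∑ X_i ^ 2`. -/
lemma sqrt_bound_sum (s : Finset ι) (X : ι → ℂ) (w : ℂ) (h : w ^ 2 = ∑ i ∈ s, X i ^ 2) :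
    w.re ^ 2 ≤ ∑ i ∈ s, (X i).re ^ 2 ∧ w.im ^ 2 ≤ ∑ i ∈ s, (X i).im ^ 2 := by
  have hre := congrArg Complex.re h
  have him := congrArg Complex.im h
  have e1 : (∑ i ∈ s, X i ^ 2).re = ∑ i ∈ s, (X i).re ^ 2 - ∑ i ∈ s, (X i).im ^ 2 := by
    rw [Complex.re_sum, ← Finset.sum_sub_distrib]
    refine Finset.sum_congr rfl fun i _ => ?_
    rw [pow_two, Complex.mul_re]; ring
  have e2 : (∑ i ∈ s, X i ^ 2).im = 2 * ∑ i ∈ s, (X i).re * (X i).im := by
    rw [Complex.im_sum, Finset.mul_sum]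
    refine Finset.sum_congr rfl fun i _ => ?_
    rw [pow_two, Complex.mul_im]; ring
  rw [e1, pow_two, Complex.mul_re] at hre
  rw [e2, pow_two, Complex.mul_im] at him
  set A := ∑ i ∈ s, (X i).re ^ 2 with hA
  set B := ∑ i ∈ s, (X i).im ^ 2 with hB
  have hA0 : 0 ≤ A := Finset.sum_nonneg fun i _ => sq_nonneg _
  have hB0 : 0 ≤ B := Finset.sum_nonneg fun i _ => sq_nonneg _
  have h3 : (w.re * w.im) ^ 2 ≤ A * B := by
    have h4 : w.re * w.im = ∑ i ∈ s, (X i).re * (X i).im := by linarith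
    rw [h4]
    exact Finset.sum_mul_sq_le_sq_mul_sq s _ _
  have hq : w.im ^ 2 ≤ B := by
    by_contra hc
    push Not at hc
    have hp : A < w.re ^ 2 := by nlinarith
    have : A * B < w.re ^ 2 * w.im ^ 2 := by nlinarith
    nlinarith
  exact ⟨by nlinarith, hq⟩

lemma norm_Q_le_sum (n : ℕ) (s : Finset ι) (X : ι → ℂ) {r : ℝ} (hr : 0 ≤ r)
    (hX : √(∑ i, (X i).re ^ 2) + √(∑ i, (X i).im ^ 2) ≤ r) :
    ‖Q n (∑ i ∈ sᶜ, X i ^ 2) (∑ i ∈ s, X i ^ 2)‖ ≤ r ^ (2 * n) := by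
  obtain ⟨u, hu⟩ := IsAlgClosed.exists_pow_nat_eq (∑ i ∈ sᶜ, X i ^ 2) (n := 2) (by norm_num)
  obtain ⟨t, ht⟩ := IsAlgClosed.exists_pow_nat_eq (∑ i ∈ s, X i ^ 2) (n := 2) (by norm_num)
  have hu' := sqrt_bound_sum sᶜ X u hu
  have ht' := sqrt_bound_sum s X t ht
  set A := ∑ i, (X i).re ^ 2 with hA
  set B := ∑ i, (X i).im ^ 2 with hB
  have hAs : ∑ i ∈ s, (X i).re ^ 2 + ∑ i ∈ sᶜ, (X i).re ^ 2 = A :=
    Finset.sum_add_sum_compl s _
  have hBs : ∑ i ∈ s, (X i).im ^ 2 + ∑ i ∈ sᶜ, (X i).im ^ 2 = B :=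
    Finset.sum_add_sum_compl s _
  have hA0 : 0 ≤ A := Finset.sum_nonneg fun i _ => sq_nonneg _
  have hB0 : 0 ≤ B := Finset.sum_nonneg fun i _ => sq_nonneg _
  have hp : u.re ^ 2 + t.re ^ 2 ≤ A := by linarith [hu'.1, ht'.1]
  have hq : u.im ^ 2 + t.im ^ 2 ≤ B := by linarith [hu'.2, ht'.2]
  have hsA := Real.sq_sqrt hA0
  have hsB := Real.sq_sqrt hB0
  have nA := Real.sqrt_nonneg A
  have nB := Real.sqrt_nonneg B
  have hr2 : (√A + √B) ^ 2 ≤ r ^ 2 := pow_le_pow_left₀ (by positivity) hX 2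
  have hcross : ∀ ε : ℝ, ε ^ 2 = 1 → ε * (u.im * t.re - u.re * t.im) ≤ √A * √B := by
    intro ε hε
    apply le_of_sq_le_sq _ (by positivity)
    have : (ε * (u.im * t.re - u.re * t.im)) ^ 2 = (u.im * t.re - u.re * t.im) ^ 2 := by
      rw [mul_pow, hε, one_mul]
    rw [this, mul_pow, hsA, hsB]
    have h1 : (u.im * t.re - u.re * t.im) ^ 2 ≤
        (u.re ^ 2 + t.re ^ 2) * (u.im ^ 2 + t.im ^ 2) := by
      nlinarith [sq_nonneg (u.im * u.re + t.re * t.im)]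
    exact h1.trans (mul_le_mul hp hq (by positivity) hA0)
  have hplus : ‖u + Complex.I * t‖ ≤ r := by
    apply le_of_sq_le_sq _ hr
    rw [← Complex.normSq_eq_norm_sq, Complex.normSq_apply]
    simp only [Complex.add_re, Complex.mul_re, Complex.I_re, Complex.I_im, Complex.add_im,
      Complex.mul_im]
    have := hcross 1 (by norm_num)
    nlinarith [this, hr2, hp, hq]
  have hminus : ‖u - Complex.I * t‖ ≤ r := by
    apply le_of_sq_le_sq _ hr
    rw [← Complex.normSq_eq_norm_sq, Complex.normSq_apply]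
    simp only [Complex.sub_re, Complex.mul_re, Complex.I_re, Complex.I_im, Complex.sub_im,
      Complex.mul_im]
    have := hcross (-1) (by norm_num)
    nlinarith [this, hr2, hp, hq]
  have h2 := two_mul_Q n u t
  rw [hu, ht] at h2
  have h3 : ‖(2 : ℂ) * Q n (∑ i ∈ sᶜ, X i ^ 2) (∑ i ∈ s, X i ^ 2)‖ ≤
      r ^ (2 * n) + r ^ (2 * n) := by
    rw [h2]
    refine (norm_add_le _ _).trans ?_
    rw [norm_pow, norm_pow]
    exact add_le_add (pow_le_pow_left₀ (norm_nonneg _) hplus _)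
      (pow_le_pow_left₀ (norm_nonneg _) hminus _)
  rw [norm_mul] at h3
  norm_num at h3
  linarith

/-- the polynomial on `ℂ^ι` -/
noncomputable def PNC (s : Finset ι) (n : ℕ) (X : EuclideanSpace ℂ ι) : ℂ :=
  Q n (∑ i ∈ sᶜ, X i ^ 2) (∑ i ∈ s, X i ^ 2)

/-- the polynomial on `ℝ^ι`: `PN s n x = Re ((|y| + i |z|) ^ (2 n))`, where `z` are the coordinates
in `s` and `y` the other ones -/
noncomputable def PN (s : Finset ι) (n : ℕ) (x : EuclideanSpace ℝ ι) : ℝ :=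
  Q n (∑ i ∈ sᶜ, x i ^ 2) (∑ i ∈ s, x i ^ 2)

lemma PNC_contDiff (s : Finset ι) (n : ℕ) : ContDiff ℂ ∞ (PNC s n) := by
  have ha : ContDiff ℂ ∞ (fun X : EuclideanSpace ℂ ι => ∑ i ∈ sᶜ, X i ^ 2) := by fun_prop
  have hb : ContDiff ℂ ∞ (fun X : EuclideanSpace ℂ ι => ∑ i ∈ s, X i ^ 2) := by fun_prop
  induction n using Nat.twoStepInduction with
  | zero =>
    have : PNC s 0 = fun _ => 1 := by ext X; simp [PNC, Q_zero]
    rw [this]; exact contDiff_const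
  | one =>
    have : PNC s 1 = fun X => (∑ i ∈ sᶜ, X i ^ 2) - ∑ i ∈ s, X i ^ 2 := by
      ext X; simp [PNC, Q_one]
    rw [this]; exact ha.sub hb
  | more n h1 h2 =>
    have : PNC s (n + 2) = fun X => 2 * ((∑ i ∈ sᶜ, X i ^ 2) - ∑ i ∈ s, X i ^ 2) *
        PNC s (n + 1) X - ((∑ i ∈ sᶜ, X i ^ 2) + ∑ i ∈ s, X i ^ 2) ^ 2 * PNC s n X := by
      ext X; simp [PNC, Q_add_two]
    rw [this]
    exact ((contDiff_const.mul (ha.sub hb)).mul h2).sub (((ha.add hb).pow 2).mul h1)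

/-- the inclusion of `ℝ^ι` in `ℂ^ι` -/
noncomputable def incN : EuclideanSpace ℝ ι →L[ℝ] EuclideanSpace ℂ ι :=
  LinearMap.mkContinuous
    { toFun := fun x => WithLp.toLp 2 fun i => ((x i : ℝ) : ℂ)
      map_add' := fun x y => by ext i; simp
      map_smul' := fun c x => by ext i; simp } 1 fun x => by
    rw [one_mul, EuclideanSpace.norm_eq, EuclideanSpace.norm_eq]
    simp

omit [DecidableEq ι] in
lemma incN_apply (x : EuclideanSpace ℝ ι) (i : ι) : incN x i = ((x i : ℝ) : ℂ) := rfl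

omit [DecidableEq ι] in
lemma norm_incN_le (x : EuclideanSpace ℝ ι) : ‖incN x‖ ≤ ‖x‖ := by
  rw [EuclideanSpace.norm_eq, EuclideanSpace.norm_eq]
  simp [incN_apply]

lemma PN_eq (s : Finset ι) (n : ℕ) : PN s n = fun x => (PNC s n (incN x)).re := by
  ext x
  have : PNC s n (incN x) = ((PN s n x : ℝ) : ℂ) := by
    rw [PN, ← Q_ofReal]
    simp [PNC, incN_apply]
  rw [this, Complex.ofReal_re]

lemma PN_contDiff (s : Finset ι) (n : ℕ) : ContDiff ℝ ∞ (PN s n) := by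
  rw [PN_eq]
  have hi : ContDiff ℝ ∞ (incN (ι := ι)) := (incN (ι := ι)).contDiff
  have hG : ContDiff ℝ ∞ (PNC s n) := (PNC_contDiff s n).restrict_scalars ℝ
  exact Complex.reCLM.contDiff.comp (hG.comp hi)

omit [DecidableEq ι] in
lemma sqrt_sum_eq (x : EuclideanSpace ℝ ι) : √(∑ i, x i ^ 2) = ‖x‖ := by
  rw [EuclideanSpace.norm_eq]
  simp

lemma PNC_bound (s : Finset ι) {m M : ℕ} (hm : 0 < m) (hM : M ≤ 2 * m)
    (x : EuclideanSpace ℝ ι) (hx : ‖x‖ ^ 2 ≤ 1 + 1 / m) (Y : EuclideanSpace ℂ ι)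
    (hY : ‖Y - incN x‖ ≤ 1 / m) : ‖PNC s M Y‖ ≤ Real.exp 10 := by
  have hm' : (0 : ℝ) < m := by exact_mod_cast hm
  have hx1 : ‖x‖ ≤ 1 + 1 / (2 * m) := by
    apply le_of_sq_le_sq _ (by positivity)
    have : (1 + 1 / (2 * (m : ℝ))) ^ 2 = 1 + 1 / m + (1 / (2 * m)) ^ 2 := by
      field_simp
      ring
    rw [this]
    have : 0 ≤ (1 / (2 * (m : ℝ))) ^ 2 := by positivity
    linarith
  have hY2 : √(∑ i, ‖Y i - (x i : ℂ)‖ ^ 2) ≤ 1 / m := by
    rw [EuclideanSpace.norm_eq] at hY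
    simpa [incN_apply] using hY
  have hre : √(∑ i, ((Y i).re - x i) ^ 2) ≤ 1 / m := by
    refine le_trans (Real.sqrt_le_sqrt (Finset.sum_le_sum fun i _ => ?_)) hY2
    have := Complex.abs_re_le_norm (Y i - (x i : ℂ))
    rw [Complex.sub_re, Complex.ofReal_re] at this
    rw [← sq_abs]
    exact pow_le_pow_left₀ (abs_nonneg _) this 2
  have him : √(∑ i, (Y i).im ^ 2) ≤ 1 / m := by
    refine le_trans (Real.sqrt_le_sqrt (Finset.sum_le_sum fun i _ => ?_)) hY2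
    have := Complex.abs_im_le_norm (Y i - (x i : ℂ))
    rw [Complex.sub_im, Complex.ofReal_im, sub_zero] at this
    rw [← sq_abs]
    exact pow_le_pow_left₀ (abs_nonneg _) this 2
  have h2 : √(∑ i, (Y i).re ^ 2) ≤ 1 + 1 / (2 * m) + 1 / m := by
    set y : EuclideanSpace ℝ ι := WithLp.toLp 2 (fun i => (Y i).re) with hy
    have e1 : √(∑ i, (Y i).re ^ 2) = ‖y‖ := by
      rw [← sqrt_sum_eq]
    have e2 : ‖y - x‖ ≤ 1 / m := by
      rw [← sqrt_sum_eq]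
      exact hre
    rw [e1]
    have e3 : y = x + (y - x) := by abel
    rw [e3]
    exact (norm_add_le _ _).trans (add_le_add hx1 e2)
  have h3 := norm_Q_le_sum M s (fun i => Y i) (r := 1 + 5 / (2 * m)) (by positivity) (by
    have : 1 + 5 / (2 * (m : ℝ)) = (1 + 1 / (2 * m) + 1 / m) + 1 / m := by
      field_simp; ring
    rw [this]
    exact add_le_add h2 him)
  refine h3.trans ?_
  have h4 : (1 + 5 / (2 * (m : ℝ))) ≤ Real.exp (5 / (2 * m)) := by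
    have := Real.add_one_le_exp (5 / (2 * (m : ℝ)))
    linarith
  have h1 : (1 : ℝ) ≤ 1 + 5 / (2 * (m : ℝ)) := by
    have : (0 : ℝ) ≤ 5 / (2 * (m : ℝ)) := by positivity
    linarith
  calc (1 + 5 / (2 * (m : ℝ))) ^ (2 * M) ≤ (1 + 5 / (2 * (m : ℝ))) ^ (4 * m) :=
        pow_le_pow_right₀ h1 (by omega)
    _ ≤ (Real.exp (5 / (2 * m))) ^ (4 * m) := pow_le_pow_left₀ (by positivity) h4 _
    _ = Real.exp 10 := by
        rw [← Real.exp_nat_mul]
        congr 1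
        push_cast
        field_simp
        ring

/-- All derivatives of `PN` of order at most three on the ball of radius `√(1 + 1/m)`. -/
theorem PN_bound (s : Finset ι) {m k M : ℕ} (hm : 0 < m) (hM : M ≤ 2 * m) (hk : k ≤ 3)
    (x : EuclideanSpace ℝ ι) (hx : ‖x‖ ^ 2 ≤ 1 + 1 / m) :
    ‖iteratedFDeriv ℝ k (PN s M) x‖ ≤ Real.exp 10 * (3 * m) ^ k := by
  have hm' : (0 : ℝ) < m := by exact_mod_cast hm
  rw [PN_eq]
  have := norm_iterated_re_le k (PNC_contDiff s M) incN norm_incN_le x (C := Real.exp 10)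
    (ρ := 1 / (3 * m)) (by positivity) (by
      intro Y hY
      apply PNC_bound s hm hM x hx Y
      refine hY.trans ?_
      have hk' : (k : ℝ) ≤ 3 := by exact_mod_cast hk
      calc (k : ℝ) * (1 / (3 * m)) ≤ 3 * (1 / (3 * m)) := by gcongr
        _ = 1 / m := by field_simp)
  refine this.trans (le_of_eq ?_)
  rw [one_div, inv_pow, div_inv_eq_mul]

lemma PN_smul (s : Finset ι) (n : ℕ) (t : ℝ) (x : EuclideanSpace ℝ ι) :
    PN s n (t • x) = t ^ (2 * n) * PN s n x := by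
  have e : ∀ u : Finset ι, ∑ i ∈ u, (t • x) i ^ 2 = t ^ 2 * ∑ i ∈ u, x i ^ 2 := by
    intro u
    rw [Finset.mul_sum]
    refine Finset.sum_congr rfl fun i _ => ?_
    simp only [PiLp.smul_apply, smul_eq_mul]
    ring
  rw [PN, PN, e, e, Q_homog, pow_mul]

/-- Euler's identity. -/
lemma PN_euler (s : Finset ι) (n : ℕ) (x : EuclideanSpace ℝ ι) :
    fderiv ℝ (PN s n) x x = 2 * n * PN s n x := by
  have h1 : HasDerivAt (fun t : ℝ => PN s n (t • x)) (fderiv ℝ (PN s n) x x) 1 := by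
    have hP : HasFDerivAt (PN s n) (fderiv ℝ (PN s n) x) ((1 : ℝ) • x) := by
      rw [one_smul]
      exact ((PN_contDiff s n).differentiable (by simp) x).hasFDerivAt
    have hl : HasDerivAt (fun t : ℝ => t • x) x 1 := by
      simpa using (hasDerivAt_id (1 : ℝ)).smul_const x
    exact hP.comp_hasDerivAt 1 hl
  have h2 : HasDerivAt (fun t : ℝ => PN s n (t • x)) (2 * n * PN s n x) 1 := by
    have e : (fun t : ℝ => PN s n (t • x)) = fun t : ℝ => t ^ (2 * n) * PN s n x := by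
      ext t; exact PN_smul s n t x
    rw [e]
    have := (hasDerivAt_pow (2 * n) (1 : ℝ)).mul_const (PN s n x)
    simpa using this
  exact h1.unique h2

/-- Values in polar coordinates: `|y| = r cos θ`, `|z| = r sin θ`. -/
lemma PN_trig (s : Finset ι) (n : ℕ) (r θ : ℝ) (x : EuclideanSpace ℝ ι)
    (hy : ∑ i ∈ sᶜ, x i ^ 2 = (r * Real.cos θ) ^ 2)
    (hz : ∑ i ∈ s, x i ^ 2 = (r * Real.sin θ) ^ 2) :
    PN s n x = r ^ (2 * n) * Real.cos (2 * n * θ) := by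
  rw [PN, hy, hz, Q_trig]

lemma PN_eq_norm (s : Finset ι) (n : ℕ) (x : EuclideanSpace ℝ ι) :
    PN s n x = Q n (‖x‖ ^ 2 - ∑ i ∈ s, x i ^ 2) (∑ i ∈ s, x i ^ 2) := by
  have h1 : ‖x‖ ^ 2 = ∑ i, x i ^ 2 := by
    rw [← sqrt_sum_eq x, Real.sq_sqrt (Finset.sum_nonneg fun i _ => sq_nonneg _)]
  have h2 : ∑ i ∈ s, x i ^ 2 + ∑ i ∈ sᶜ, x i ^ 2 = ∑ i, x i ^ 2 := Finset.sum_add_sum_compl s _
  rw [PN]
  congr 1
  linarith

/-- `s = {i, j}` -/
lemma PN_pair {i j : ι} (hij : i ≠ j) (n : ℕ) (x : EuclideanSpace ℝ ι) :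
    PN {i, j} n x = Q n (‖x‖ ^ 2 - (x i ^ 2 + x j ^ 2)) (x i ^ 2 + x j ^ 2) := by
  rw [PN_eq_norm, Finset.sum_pair hij]

end Pool.Agent.LibMPa29272s
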