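import Mathlib

/-!
# A map close to the identity on a ball is a diffeomorphism onto an open set
-/

set_option autoImplicit false
set_option linter.unusedSectionVars false

namespace Pool.Agent.A29272S

open Set Metric
open scoped ContDiff NNReal

variable {E : Type*} [NormedAddCommGroup E] [NormedSpace ℝ E] [CompleteSpace E]

/-- a map `f` with `|f v - f w - (v - w)| ≤ |v - w| / 4` on an open set `U` -/
def NearId (f : E → E) (U : Set E) : Prop :=
  ∀ v ∈ U, ∀ w ∈ U, ‖f v - f w - (v - w)‖ ≤ (1 / 4) * ‖v - w‖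

theorem NearId.approx {f : E → E} {U : Set E} (h : NearId f U) :
    ApproximatesLinearOn f ((ContinuousLinearEquiv.refl ℝ E : E ≃L[ℝ] E) : E →L[ℝ] E) U (1 / 4 : ℝ≥0) := by
  intro v hv w hw
  have h1 := h v hv w hw
  simpa using h1

theorem NearId.injOn {f : E → E} {U : Set E} (h : NearId f U) : InjOn f U := by
  intro v hv w hw hvw
  have h1 := h v hv w hw
  rw [hvw, sub_self, zero_sub, norm_neg] at h1
  have h2 : ‖v - w‖ ≤ 0 := by linarith [norm_nonneg (v - w)]
  exact sub_eq_zero.1 (norm_le_zero_iff.1 h2)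

/-- Surjectivity: if `|f v - x - v| ≤ ε` at `v = y - x` and the closed ball of radius `2 ε` around `y - x` lies in `U`,
then `y` is a value of `f` on `U`. -/
theorem NearId.surj {f : E → E} {U : Set E} (h : NearId f U) {x y : E} {ε : ℝ} (hε : 0 ≤ ε)
    (hU : closedBall (y - x) (2 * ε) ⊆ U) (hy : ‖f (y - x) - y‖ ≤ ε) :
    ∃ v ∈ closedBall (y - x) (2 * ε), f v = y := by
  rcases hε.eq_or_lt with h0 | hpos
  · refine ⟨y - x, mem_closedBall_self (by linarith), ?_⟩
    have : ‖f (y - x) - y‖ ≤ 0 := by linarith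
    exact sub_eq_zero.1 (norm_le_zero_iff.1 this)
  -- contraction `v ↦ v - (f v - y)`
  let K : Set E := closedBall (y - x) (2 * ε)
  have hK : IsClosed K := isClosed_closedBall
  let Φ : E → E := fun v => v - (f v - y)
  have hmaps : MapsTo Φ K K := by
    intro v hv
    have hv' : v ∈ closedBall (y - x) (2 * ε) := hv
    have hc : (y - x) ∈ closedBall (y - x) (2 * ε) := mem_closedBall_self (by linarith)
    have h1 := h v (hU hv) (y - x) (hU hc)
    have h2 : Φ v - (y - x) = -(f v - f (y - x) - (v - (y - x))) - (f (y - x) - y) := by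
      simp only [Φ]
      abel
    have h3 : ‖Φ v - (y - x)‖ ≤ (1 / 4) * ‖v - (y - x)‖ + ε := by
      rw [h2]
      calc ‖-(f v - f (y - x) - (v - (y - x))) - (f (y - x) - y)‖
          ≤ ‖-(f v - f (y - x) - (v - (y - x)))‖ + ‖f (y - x) - y‖ := norm_sub_le _ _
        _ ≤ (1 / 4) * ‖v - (y - x)‖ + ε := by
            rw [norm_neg]
            exact add_le_add h1 hy
    have h4 : ‖v - (y - x)‖ ≤ 2 * ε := by
      rw [← dist_eq_norm]
      exact mem_closedBall.1 hv'
    rw [mem_closedBall, dist_eq_norm]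
    show ‖Φ v - (y - x)‖ ≤ 2 * ε
    linarith
  have hcontr : ContractingWith (1 / 4 : ℝ≥0) (hmaps.restrict Φ K K) := by
    refine ⟨by
      rw [← NNReal.coe_lt_coe]
      norm_num, ?_⟩
    refine LipschitzWith.of_dist_le_mul ?_
    rintro ⟨v, hv⟩ ⟨w, hw⟩
    have h1 := h v (hU hv) w (hU hw)
    show dist (Φ v) (Φ w) ≤ _
    rw [dist_eq_norm]
    have h2 : Φ v - Φ w = -(f v - f w - (v - w)) := by
      simp only [Φ]
      abel
    rw [h2, norm_neg]
    refine h1.trans (le_of_eq ?_)
    show (1 / 4) * ‖v - w‖ = ((1 / 4 : ℝ≥0) : ℝ) * dist v w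
    rw [dist_eq_norm]
    norm_num
  have hc : (y - x) ∈ K := mem_closedBall_self (by linarith)
  obtain ⟨v, hvK, hfix, -, -⟩ := hcontr.exists_fixedPoint' hK.isComplete hmaps hc (edist_ne_top _ _)
  refine ⟨v, hvK, ?_⟩
  have : v - (f v - y) = v := hfix
  have h5 : f v - y = 0 := by
    have := sub_eq_self.1 this
    exact this
  exact sub_eq_zero.1 h5

/-- the derivative of such a map is invertible -/
theorem NearId.deriv_equiv {f : E → E} {U : Set E} (h : NearId f U) (hU : IsOpen U) {v : E} (hv : v ∈ U)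
    {f' : E →L[ℝ] E} (hf : HasFDerivAt f f' v) : ∃ e : E ≃L[ℝ] E, (e : E →L[ℝ] E) = f' := by
  have h1 : ‖f' - ContinuousLinearMap.id ℝ E‖ ≤ 1 / 4 := by
    have h2 : HasFDerivAt (fun w => f w - w) (f' - ContinuousLinearMap.id ℝ E) v := hf.sub (hasFDerivAt_id v)
    refine h2.le_of_lip' (by norm_num) ?_
    filter_upwards [hU.mem_nhds hv] with w hw
    have h3 := h w hw v hv
    have h4 : f w - w - (f v - v) = f w - f v - (w - v) := by abel
    rw [h4]
    exact h3
  have h5 : ‖(1 : E →L[ℝ] E) - f'‖ < 1 := by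
    rw [norm_sub_rev]
    refine lt_of_le_of_lt h1 (by norm_num)
  let u := Units.oneSub ((1 : E →L[ℝ] E) - f') h5
  refine ⟨ContinuousLinearEquiv.unitsEquiv ℝ E u, ?_⟩
  ext w
  show (u : E →L[ℝ] E) w = f' w
  have : (u : E →L[ℝ] E) = 1 - (1 - f') := Units.val_oneSub _ _
  rw [this]
  simp

/-- A map close to the identity and `C^∞` on an open set `U` is a `C^∞` diffeomorphism of `U` onto an open set. -/
theorem NearId.exists_homeo {f : E → E} {U : Set E} (h : NearId f U) (hU : IsOpen U)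
    (hf : ContDiffOn ℝ ∞ f U) :
    ∃ e : OpenPartialHomeomorph E E, e.source = U ∧ (∀ v, e v = f v) ∧ ContDiffOn ℝ ∞ e.symm e.target := by
  have hc : Subsingleton E ∨ (1 / 4 : ℝ≥0) < ‖((ContinuousLinearEquiv.refl ℝ E).symm : E →L[ℝ] E)‖₊⁻¹ := by
    rcases subsingleton_or_nontrivial E with hE | hE
    · exact Or.inl hE
    right
    have : ‖((ContinuousLinearEquiv.refl ℝ E).symm : E →L[ℝ] E)‖₊ = 1 := by
      simp
    rw [this, inv_one]
    rw [← NNReal.coe_lt_coe]
    norm_num
  let e := h.approx.toOpenPartialHomeomorph f U hc hU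
  refine ⟨e, rfl, fun v => rfl, ?_⟩
  intro y hy
  have hx : e.symm y ∈ U := e.map_target hy
  have hfa : ContDiffAt ℝ ∞ f (e.symm y) := hf.contDiffAt (hU.mem_nhds hx)
  have hd : HasFDerivAt f (fderiv ℝ f (e.symm y)) (e.symm y) := (hfa.differentiableAt (by simp)).hasFDerivAt
  obtain ⟨L, hL⟩ := h.deriv_equiv hU hx hd
  rw [← hL] at hd
  exact (e.contDiffAt_symm hy hd hfa).contDiffWithinAt

end Pool.Agent.A29272S
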