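import Mathlib

/-!
# Cauchy estimates for iterated derivatives of real parts of entire functions
-/

namespace Pool.Agent.LibMPa29272s

open Set Metric
open scoped ContDiff

section Cauchy

variable {W : Type*} [NormedAddCommGroup W] [NormedSpace ℂ W]

lemma contDiff_iterated_apply {k : ℕ} {G : W → ℂ} (hG : ContDiff ℂ ∞ G) (v : Fin k → W) :
    ContDiff ℂ ∞ (fun y => iteratedFDeriv ℂ k G y v) := by
  have h : ContDiff ℂ ∞ (iteratedFDeriv ℂ k G) := by
    apply ContDiff.iteratedFDeriv_right hG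
    exact mod_cast le_top
  exact (ContinuousMultilinearMap.apply ℂ (fun _ : Fin k => W) ℂ v).contDiff.comp h

lemma cauchy_line {H : W → ℂ} (hH : ContDiff ℂ ∞ H) (X v : W) {C ρ : ℝ} (hρ : 0 < ρ)
    (hC : ∀ Y : W, ‖Y - X‖ ≤ ρ → ‖H Y‖ ≤ C) : ‖fderiv ℂ H X v‖ ≤ C / ρ * ‖v‖ := by
  by_cases hv : v = 0
  · simp [hv]
  have hv' : 0 < ‖v‖ := norm_pos_iff.2 hv
  have hdiff : Differentiable ℂ H := hH.differentiable (by simp)
  have hline : ∀ t : ℂ, HasDerivAt (fun t : ℂ => H (X + t • v)) (fderiv ℂ H (X + t • v) v) t := by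
    intro t
    have h1 : HasDerivAt (fun t : ℂ => X + t • v) v t := by
      simpa using ((hasDerivAt_id t).smul_const v).const_add X
    exact (hdiff (X + t • v)).hasFDerivAt.comp_hasDerivAt t h1
  have h0 : deriv (fun t : ℂ => H (X + t • v)) 0 = fderiv ℂ H X v := by
    simpa using (hline 0).deriv
  have hr : 0 < ρ / ‖v‖ := div_pos hρ hv'
  have key := Complex.norm_deriv_le_of_forall_mem_sphere_norm_le (c := 0) (R := ρ / ‖v‖) (C := C)
    (f := fun t : ℂ => H (X + t • v)) hr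
    (by
      have : Differentiable ℂ (fun t : ℂ => H (X + t • v)) :=
        fun t => (hline t).differentiableAt
      exact this.diffContOnCl)
    (by
      intro z hz
      apply hC
      have hz' : ‖z‖ = ρ / ‖v‖ := by simpa using hz
      have : ‖X + z • v - X‖ = ρ := by
        rw [add_sub_cancel_left, norm_smul, hz']
        field_simp
      exact this.le)
  rw [h0] at key
  calc ‖fderiv ℂ H X v‖ ≤ C / (ρ / ‖v‖) := key
    _ = C / ρ * ‖v‖ := by field_simp

lemma iterated_succ_apply {k : ℕ} {G : W → ℂ} (hG : ContDiff ℂ ∞ G) (X : W)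
    (v : Fin (k + 1) → W) :
    iteratedFDeriv ℂ (k + 1) G X v =
      fderiv ℂ (fun y => iteratedFDeriv ℂ k G y (Fin.tail v)) X (v 0) := by
  rw [iteratedFDeriv_succ_apply_left]
  have h : DifferentiableAt ℂ (iteratedFDeriv ℂ k G) X := by
    have h : ContDiff ℂ ∞ (iteratedFDeriv ℂ k G) := by
      apply ContDiff.iteratedFDeriv_right hG
      exact mod_cast le_top
    exact (h.differentiable (by simp)) X
  have h2 := h.hasFDerivAt
  have h3 := (ContinuousMultilinearMap.apply ℂ (fun _ : Fin k => W) ℂ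
    (Fin.tail v)).hasFDerivAt.comp X h2
  have h4 := h3.fderiv
  have h5 : (fun y => iteratedFDeriv ℂ k G y (Fin.tail v)) =
      (ContinuousMultilinearMap.apply ℂ (fun _ : Fin k => W) ℂ (Fin.tail v)) ∘
        (iteratedFDeriv ℂ k G) := by
    ext y
    rfl
  rw [h5, h4]
  rfl

lemma cauchy_iterated (k : ℕ) : ∀ {G : W → ℂ} (_ : ContDiff ℂ ∞ G) (X : W) {C ρ : ℝ}
    (_ : 0 < ρ) (_ : ∀ Y : W, ‖Y - X‖ ≤ k * ρ → ‖G Y‖ ≤ C) (v : Fin k → W),
    ‖iteratedFDeriv ℂ k G X v‖ ≤ C / ρ ^ k * ∏ i, ‖v i‖ := by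
  induction k with
  | zero =>
    intro G hG X C ρ hρ hC v
    have := hC X (by simp)
    simpa using this
  | succ k ih =>
    intro G hG X C ρ hρ hC v
    rw [iterated_succ_apply hG X v]
    have hH := contDiff_iterated_apply (k := k) hG (Fin.tail v)
    have hb : ∀ Y : W, ‖Y - X‖ ≤ ρ →
        ‖iteratedFDeriv ℂ k G Y (Fin.tail v)‖ ≤ C / ρ ^ k * ∏ i, ‖Fin.tail v i‖ := by
      intro Y hY
      apply ih hG Y hρ
      intro Z hZ
      apply hC
      have : Z - X = (Z - Y) + (Y - X) := by abel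
      rw [this]
      calc ‖(Z - Y) + (Y - X)‖ ≤ ‖Z - Y‖ + ‖Y - X‖ := norm_add_le _ _
        _ ≤ k * ρ + ρ := add_le_add hZ hY
        _ = ((k + 1 : ℕ) : ℝ) * ρ := by push_cast; ring
    have := cauchy_line hH X (v 0) hρ hb
    calc ‖fderiv ℂ (fun y => iteratedFDeriv ℂ k G y (Fin.tail v)) X (v 0)‖
        ≤ (C / ρ ^ k * ∏ i, ‖Fin.tail v i‖) / ρ * ‖v 0‖ := this
      _ = C / ρ ^ (k + 1) * ∏ i, ‖v i‖ := by
        rw [Fin.prod_univ_succ]
        have h1 : (∏ i, ‖Fin.tail v i‖) = ∏ i : Fin k, ‖v i.succ‖ := rfl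
        rw [h1, pow_succ]
        field_simp

variable {E : Type*} [NormedAddCommGroup E] [NormedSpace ℝ E] [NormedSpace ℝ W]
  [IsScalarTower ℝ ℂ W]

lemma re_iterated (k : ℕ) {G : W → ℂ} (hG : ContDiff ℂ ∞ G) (ι : E →L[ℝ] W) (x : E)
    (v : Fin k → E) :
    iteratedFDeriv ℝ k (fun y => (G (ι y)).re) x v =
      (iteratedFDeriv ℂ k G (ι x) (fun i => ι (v i))).re := by
  have hreal : ContDiff ℝ ∞ (fun y => (G (ι y)).re) :=
    Complex.reCLM.contDiff.comp ((hG.restrict_scalars ℝ).comp ι.contDiff)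
  induction k generalizing x with
  | zero => simp
  | succ k ih =>
    rw [iterated_succ_apply hG, iteratedFDeriv_succ_apply_left]
    have h : DifferentiableAt ℝ (iteratedFDeriv ℝ k (fun y => (G (ι y)).re)) x := by
      have h : ContDiff ℝ ∞ (iteratedFDeriv ℝ k (fun y => (G (ι y)).re)) := by
        apply ContDiff.iteratedFDeriv_right hreal
        exact mod_cast le_top
      exact (h.differentiable (by simp)) x
    have h3 := ((ContinuousMultilinearMap.apply ℝ (fun _ : Fin k => E) ℝ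
      (Fin.tail v)).hasFDerivAt.comp x h.hasFDerivAt).fderiv
    have h5 : (fun y => iteratedFDeriv ℝ k (fun y => (G (ι y)).re) y (Fin.tail v)) =
      (ContinuousMultilinearMap.apply ℝ (fun _ : Fin k => E) ℝ (Fin.tail v)) ∘
        (iteratedFDeriv ℝ k (fun y => (G (ι y)).re)) := by
      ext y
      rfl
    have h6 : (fderiv ℝ (iteratedFDeriv ℝ k fun y => (G (ι y)).re) x (v 0)) (Fin.tail v) =
        fderiv ℝ (fun y => iteratedFDeriv ℝ k (fun y => (G (ι y)).re) y (Fin.tail v)) x (v 0) := by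
      rw [h5, h3]
      rfl
    rw [h6]
    have h7 : (fun y => iteratedFDeriv ℝ k (fun y => (G (ι y)).re) y (Fin.tail v)) =
        fun y => (iteratedFDeriv ℂ k G (ι y) (Fin.tail fun i => ι (v i))).re := by
      ext y
      exact ih y (Fin.tail v)
    rw [h7]
    have hH := contDiff_iterated_apply (k := k) hG (Fin.tail fun i => ι (v i))
    have hHd : HasFDerivAt (𝕜 := ℝ)
        (fun Y => iteratedFDeriv ℂ k G Y (Fin.tail fun i => ι (v i)))
        ((fderiv ℂ (fun Y => iteratedFDeriv ℂ k G Y (Fin.tail fun i => ι (v i))) (ι x)).restrictScalars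
          ℝ) (ι x) :=
      ((hH.differentiable (by simp)) (ι x)).hasFDerivAt.restrictScalars ℝ
    have h8 := (Complex.reCLM.hasFDerivAt.comp x (hHd.comp x ι.hasFDerivAt)).fderiv
    have h9 : (fun y => (iteratedFDeriv ℂ k G (ι y) (Fin.tail fun i => ι (v i))).re) =
        Complex.reCLM ∘ ((fun Y => iteratedFDeriv ℂ k G Y (Fin.tail fun i => ι (v i))) ∘ ι) := by
      ext y
      rfl
    rw [h9, h8]
    rfl

/-- Cauchy estimate for the real part of an entire function restricted to a real subspace. -/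
lemma norm_iterated_re_le (k : ℕ) {G : W → ℂ} (hG : ContDiff ℂ ∞ G) (ι : E →L[ℝ] W)
    (hι : ∀ v, ‖ι v‖ ≤ ‖v‖) (x : E) {C ρ : ℝ} (hρ : 0 < ρ)
    (hC : ∀ Y : W, ‖Y - ι x‖ ≤ k * ρ → ‖G Y‖ ≤ C) :
    ‖iteratedFDeriv ℝ k (fun y => (G (ι y)).re) x‖ ≤ C / ρ ^ k := by
  have hC0 : 0 ≤ C := (norm_nonneg _).trans (hC (ι x) (by
    simp only [sub_self, norm_zero]
    positivity))
  apply ContinuousMultilinearMap.opNorm_le_bound (by positivity)
  intro v
  rw [re_iterated k hG ι x v]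
  have h1 : ‖(iteratedFDeriv ℂ k G (ι x) (fun i => ι (v i))).re‖ ≤
      ‖iteratedFDeriv ℂ k G (ι x) (fun i => ι (v i))‖ := Complex.abs_re_le_norm _
  refine h1.trans ((cauchy_iterated k hG (ι x) hρ hC _).trans ?_)
  apply mul_le_mul_of_nonneg_left _ (by positivity)
  exact Finset.prod_le_prod (fun i _ => norm_nonneg _) (fun i _ => hι (v i))

end Cauchy

end Pool.Agent.LibMPa29272s
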