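import Pool.Agent.Lib_MP_a29272_s.Poly

/-!
# Bounds for all derivatives up to order three of `P` in the shell
-/

namespace Pool.Agent.LibMPa29272s

open Set Metric
open scoped ContDiff RealInnerProductSpace

/-- four dimensional Euclidean space -/
abbrev E4 : Type := EuclideanSpace ℝ (Fin 4)

/-- the polynomial on `ℂ⁴` -/
noncomputable def PC (n : ℕ) (X : Fin 4 → ℂ) : ℂ := Q n (X 0 ^ 2 + X 1 ^ 2) (X 2 ^ 2 + X 3 ^ 2)

/-- the polynomial on `ℝ⁴`: `P n x = Re ((|z₁| + i |z₂|) ^ (2 n))` -/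
noncomputable def P (n : ℕ) (x : E4) : ℝ := Q n (x 0 ^ 2 + x 1 ^ 2) (x 2 ^ 2 + x 3 ^ 2)

lemma PC_contDiff (n : ℕ) : ContDiff ℂ ∞ (PC n) := by
  induction n using Nat.twoStepInduction with
  | zero =>
    have : PC 0 = fun _ => 1 := by ext X; simp [PC, Q_zero]
    rw [this]; exact contDiff_const
  | one =>
    have : PC 1 = fun X => X 0 ^ 2 + X 1 ^ 2 - (X 2 ^ 2 + X 3 ^ 2) := by
      ext X; simp [PC, Q_one]
    rw [this]; fun_prop
  | more n h1 h2 =>
    have : PC (n + 2) = fun X => 2 * (X 0 ^ 2 + X 1 ^ 2 - (X 2 ^ 2 + X 3 ^ 2)) * PC (n + 1) X -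
        (X 0 ^ 2 + X 1 ^ 2 + (X 2 ^ 2 + X 3 ^ 2)) ^ 2 * PC n X := by
      ext X; simp [PC, Q_add_two]
    rw [this]; fun_prop

/-- the inclusion of `ℝ⁴` in `ℂ⁴` -/
noncomputable def inc : E4 →L[ℝ] (Fin 4 → ℂ) :=
  ContinuousLinearMap.pi fun i => Complex.ofRealCLM.comp (EuclideanSpace.proj i)

lemma inc_apply (x : E4) (i : Fin 4) : inc x i = (x i : ℂ) := rfl

lemma norm_inc_le (x : E4) : ‖inc x‖ ≤ ‖x‖ := by
  rw [pi_norm_le_iff_of_nonneg (norm_nonneg _)]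
  intro i
  rw [inc_apply, Complex.norm_real]
  exact PiLp.norm_apply_le x i

lemma P_eq (n : ℕ) : P n = fun x => (PC n (inc x)).re := by
  ext x
  have : PC n (inc x) = ((P n x : ℝ) : ℂ) := by
    rw [P, ← Q_ofReal]
    simp [PC, inc_apply]
  rw [this, Complex.ofReal_re]

lemma P_contDiff (n : ℕ) : ContDiff ℝ ∞ (P n) := by
  rw [P_eq]
  exact Complex.reCLM.contDiff.comp (((PC_contDiff n).restrict_scalars ℝ).comp inc.contDiff)

lemma sqrt_four (x : E4) : √(x 0 ^ 2 + x 1 ^ 2 + x 2 ^ 2 + x 3 ^ 2) = ‖x‖ := by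
  rw [EuclideanSpace.norm_eq, Fin.sum_univ_four]
  simp

lemma sqrt_four_le {a b c d e : ℝ} (he : 0 ≤ e) (ha : |a| ≤ e) (hb : |b| ≤ e) (hc : |c| ≤ e)
    (hd : |d| ≤ e) : √(a ^ 2 + b ^ 2 + c ^ 2 + d ^ 2) ≤ 2 * e := by
  rw [Real.sqrt_le_left (by positivity)]
  have h : ∀ t : ℝ, |t| ≤ e → t ^ 2 ≤ e ^ 2 := by
    intro t ht
    rw [← sq_abs t]
    exact pow_le_pow_left₀ (abs_nonneg _) ht 2
  nlinarith [h a ha, h b hb, h c hc, h d hd]

lemma PC_bound {n : ℕ} (hn : 0 < n) (x : E4) (hx : ‖x‖ ^ 2 ≤ 1 + 1 / n) (Y : Fin 4 → ℂ)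
    (hY : ‖Y - inc x‖ ≤ 1 / n) : ‖PC n Y‖ ≤ Real.exp 9 := by
  have hn' : (0 : ℝ) < n := by exact_mod_cast hn
  have hx1 : ‖x‖ ≤ 1 + 1 / (2 * n) := by
    apply le_of_sq_le_sq _ (by positivity)
    have : (1 + 1 / (2 * (n : ℝ))) ^ 2 = 1 + 1 / n + (1 / (2 * n)) ^ 2 := by
      field_simp
      ring
    rw [this]
    have : 0 ≤ (1 / (2 * (n : ℝ))) ^ 2 := by positivity
    linarith
  have hζ : ∀ i, ‖Y i - (x i : ℂ)‖ ≤ 1 / n := by
    intro i
    have := (norm_le_pi_norm (Y - inc x) i).trans hY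
    simpa [inc_apply] using this
  have hre : ∀ i, |(Y i).re - x i| ≤ 1 / n := by
    intro i
    have := (Complex.abs_re_le_norm (Y i - (x i : ℂ))).trans (hζ i)
    simpa using this
  have him : ∀ i, |(Y i).im| ≤ 1 / n := by
    intro i
    have := (Complex.abs_im_le_norm (Y i - (x i : ℂ))).trans (hζ i)
    simpa using this
  have h1 : √((Y 0).im ^ 2 + (Y 1).im ^ 2 + (Y 2).im ^ 2 + (Y 3).im ^ 2) ≤ 2 * (1 / n) :=
    sqrt_four_le (by positivity) (him 0) (him 1) (him 2) (him 3)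
  have h2 : √((Y 0).re ^ 2 + (Y 1).re ^ 2 + (Y 2).re ^ 2 + (Y 3).re ^ 2) ≤
      1 + 1 / (2 * n) + 2 * (1 / n) := by
    set y : E4 := WithLp.toLp 2 (fun i => (Y i).re) with hy
    have e1 : √((Y 0).re ^ 2 + (Y 1).re ^ 2 + (Y 2).re ^ 2 + (Y 3).re ^ 2) = ‖y‖ := by
      rw [← sqrt_four]
    have e2 : ‖y - x‖ ≤ 2 * (1 / n) := by
      rw [← sqrt_four]
      exact sqrt_four_le (by positivity) (hre 0) (hre 1) (hre 2) (hre 3)
    rw [e1]
    have e3 : y = x + (y - x) := by abel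
    rw [e3]
    exact (norm_add_le _ _).trans (add_le_add hx1 e2)
  have h3 := norm_Q_le n Y (r := 1 + 9 / (2 * n)) (by positivity) (by
    have : 1 + 9 / (2 * (n : ℝ)) = (1 + 1 / (2 * n) + 2 * (1 / n)) + 2 * (1 / n) := by
      field_simp; ring
    rw [this]
    exact add_le_add h2 h1)
  refine h3.trans ?_
  have h4 : (1 + 9 / (2 * (n : ℝ))) ≤ Real.exp (9 / (2 * n)) := by
    have := Real.add_one_le_exp (9 / (2 * (n : ℝ)))
    linarith
  calc (1 + 9 / (2 * (n : ℝ))) ^ (2 * n) ≤ (Real.exp (9 / (2 * n))) ^ (2 * n) :=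
        pow_le_pow_left₀ (by positivity) h4 _
    _ = Real.exp 9 := by
        rw [← Real.exp_nat_mul]
        congr 1
        push_cast
        field_simp

/-- All derivatives of `P` of order at most three in the shell. -/
theorem P_bound {n k : ℕ} (hn : 0 < n) (hk : k ≤ 3) (x : E4) (hx : ‖x‖ ^ 2 ≤ 1 + 1 / n) :
    ‖iteratedFDeriv ℝ k (P n) x‖ ≤ Real.exp 9 * (3 * n) ^ k := by
  have hn' : (0 : ℝ) < n := by exact_mod_cast hn
  rw [P_eq]
  have := norm_iterated_re_le k (PC_contDiff n) inc norm_inc_le x (C := Real.exp 9)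
    (ρ := 1 / (3 * n)) (by positivity) (by
      intro Y hY
      apply PC_bound hn x hx Y
      refine hY.trans ?_
      have hk' : (k : ℝ) ≤ 3 := by exact_mod_cast hk
      calc (k : ℝ) * (1 / (3 * n)) ≤ 3 * (1 / (3 * n)) := by gcongr
        _ = 1 / n := by field_simp)
  refine this.trans (le_of_eq ?_)
  rw [one_div, inv_pow, div_inv_eq_mul]

lemma P_smul (n : ℕ) (t : ℝ) (x : E4) : P n (t • x) = t ^ (2 * n) * P n x := by
  have e1 : (t • x) 0 ^ 2 + (t • x) 1 ^ 2 = t ^ 2 * (x 0 ^ 2 + x 1 ^ 2) := by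
    simp only [PiLp.smul_apply, smul_eq_mul]; ring
  have e2 : (t • x) 2 ^ 2 + (t • x) 3 ^ 2 = t ^ 2 * (x 2 ^ 2 + x 3 ^ 2) := by
    simp only [PiLp.smul_apply, smul_eq_mul]; ring
  rw [P, P, e1, e2, Q_homog, pow_mul]

/-- Euler's identity. -/
lemma P_euler (n : ℕ) (x : E4) : fderiv ℝ (P n) x x = 2 * n * P n x := by
  have h1 : HasDerivAt (fun t : ℝ => P n (t • x)) (fderiv ℝ (P n) x x) 1 := by
    have hP : HasFDerivAt (P n) (fderiv ℝ (P n) x) ((1 : ℝ) • x) := by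
      rw [one_smul]
      exact ((P_contDiff n).differentiable (by simp) x).hasFDerivAt
    have hl : HasDerivAt (fun t : ℝ => t • x) x 1 := by
      simpa using (hasDerivAt_id (1 : ℝ)).smul_const x
    exact hP.comp_hasDerivAt 1 hl
  have h2 : HasDerivAt (fun t : ℝ => P n (t • x)) (2 * n * P n x) 1 := by
    have e : (fun t : ℝ => P n (t • x)) = fun t : ℝ => t ^ (2 * n) * P n x := by
      ext t; exact P_smul n t x
    rw [e]
    have := (hasDerivAt_pow (2 * n) (1 : ℝ)).mul_const (P n x)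
    simpa using this
  exact h1.unique h2

/-- Values on a great circle of the sphere through the two Hopf circles. -/
lemma P_trig (n : ℕ) (r θ a b : ℝ) (x : E4) (h0 : x 0 = r * Real.cos θ * Real.cos a)
    (h1 : x 1 = r * Real.cos θ * Real.sin a) (h2 : x 2 = r * Real.sin θ * Real.cos b)
    (h3 : x 3 = r * Real.sin θ * Real.sin b) :
    P n x = r ^ (2 * n) * Real.cos (2 * n * θ) := by
  rw [← Q_trig, P, h0, h1, h2, h3]
  congr 1
  · have := Real.sin_sq_add_cos_sq a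
    linear_combination (r * Real.cos θ) ^ 2 * this
  · have := Real.sin_sq_add_cos_sq b
    linear_combination (r * Real.sin θ) ^ 2 * this

end Pool.Agent.LibMPa29272s
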