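import Pool.Agent.Lib_MP_a29272_s.Cauchy

/-!
# The polynomial `Re (|z₁| + i |z₂|)^(2M)` on `ℂ²` and its derivative bounds
-/

namespace Pool.Agent.LibMPa29272s

open Set Metric
open scoped ContDiff

/-- `Q n a b = Re ((√a + i √b)^(2n))` as a polynomial, by its three term recursion. -/
def Q {R : Type*} [CommRing R] : ℕ → R → R → R
  | 0, _, _ => 1
  | 1, a, b => a - b
  | (n + 2), a, b => 2 * (a - b) * Q (n + 1) a b - (a + b) ^ 2 * Q n a b

lemma Q_zero {R : Type*} [CommRing R] (a b : R) : Q 0 a b = 1 := rfl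
lemma Q_one {R : Type*} [CommRing R] (a b : R) : Q 1 a b = a - b := rfl
lemma Q_add_two {R : Type*} [CommRing R] (n : ℕ) (a b : R) :
    Q (n + 2) a b = 2 * (a - b) * Q (n + 1) a b - (a + b) ^ 2 * Q n a b := rfl

lemma Q_ofReal (n : ℕ) (a b : ℝ) : Q n (a : ℂ) (b : ℂ) = ((Q n a b : ℝ) : ℂ) := by
  induction n using Nat.twoStepInduction with
  | zero => simp [Q_zero]
  | one => simp [Q_one]
  | more n h1 h2 => rw [Q_add_two, Q_add_two, h1, h2]; push_cast; ring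

lemma two_mul_Q (n : ℕ) (s t : ℂ) :
    2 * Q n (s ^ 2) (t ^ 2) =
      (s + Complex.I * t) ^ (2 * n) + (s - Complex.I * t) ^ (2 * n) := by
  induction n using Nat.twoStepInduction with
  | zero => simp [Q_zero]; norm_num
  | one =>
    rw [Q_one]
    have := Complex.I_sq
    linear_combination (-2 * t ^ 2) * this
  | more n h1 h2 =>
    rw [Q_add_two]
    have hI := Complex.I_sq
    have e1 : (2 : ℂ) * (2 * (s ^ 2 - t ^ 2) * Q (n + 1) (s ^ 2) (t ^ 2) -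
        (s ^ 2 + t ^ 2) ^ 2 * Q n (s ^ 2) (t ^ 2)) =
        2 * (s ^ 2 - t ^ 2) * (2 * Q (n + 1) (s ^ 2) (t ^ 2)) -
        (s ^ 2 + t ^ 2) ^ 2 * (2 * Q n (s ^ 2) (t ^ 2)) := by ring
    rw [e1, h1, h2]
    have e2 : (2 : ℂ) * (s ^ 2 - t ^ 2) =
        (s + Complex.I * t) ^ 2 + (s - Complex.I * t) ^ 2 := by
      linear_combination (-2 * t ^ 2) * hI
    have e3 : (s ^ 2 + t ^ 2) ^ 2 = (s + Complex.I * t) ^ 2 * (s - Complex.I * t) ^ 2 := by
      have e4 : s ^ 2 + t ^ 2 = (s + Complex.I * t) * (s - Complex.I * t) := by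
        linear_combination (t ^ 2) * hI
      rw [e4]; ring
    rw [e2, e3]
    ring

lemma Q_trig (n : ℕ) (r θ : ℝ) :
    Q n ((r * Real.cos θ) ^ 2) ((r * Real.sin θ) ^ 2) = r ^ (2 * n) * Real.cos (2 * n * θ) := by
  induction n using Nat.twoStepInduction with
  | zero => simp [Q_zero]
  | one =>
    rw [Q_one]
    have : Real.cos (2 * (1 : ℕ) * θ) = Real.cos θ ^ 2 - Real.sin θ ^ 2 := by
      have := Real.cos_two_mul' θ
      simpa using this
    rw [this]; ring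
  | more n h1 h2 =>
    rw [Q_add_two, h1, h2]
    have h3 : Real.cos (2 * ((n + 2 : ℕ) : ℝ) * θ) =
        2 * Real.cos (2 * θ) * Real.cos (2 * ((n + 1 : ℕ) : ℝ) * θ) -
          Real.cos (2 * (n : ℝ) * θ) := by
      have e1 : 2 * ((n + 2 : ℕ) : ℝ) * θ = 2 * ((n + 1 : ℕ) : ℝ) * θ + 2 * θ := by
        push_cast; ring
      have e2 : 2 * (n : ℝ) * θ = 2 * ((n + 1 : ℕ) : ℝ) * θ - 2 * θ := by
        push_cast; ring
      rw [e1, e2, Real.cos_add, Real.cos_sub]; ring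
    have h4 : (r * Real.cos θ) ^ 2 - (r * Real.sin θ) ^ 2 = r ^ 2 * Real.cos (2 * θ) := by
      rw [Real.cos_two_mul']; ring
    have h5 : (r * Real.cos θ) ^ 2 + (r * Real.sin θ) ^ 2 = r ^ 2 := by
      have := Real.sin_sq_add_cos_sq θ
      linear_combination r ^ 2 * this
    rw [h3, h4, h5]
    ring

lemma Q_homog {R : Type*} [CommRing R] (n : ℕ) (c a b : R) :
    Q n (c * a) (c * b) = c ^ n * Q n a b := by
  induction n using Nat.twoStepInduction with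
  | zero => simp [Q_zero]
  | one => rw [Q_one, Q_one]; ring
  | more n h1 h2 => rw [Q_add_two, Q_add_two, h1, h2]; ring

/-- Complex square roots of `X₀² + X₁²`. -/
lemma sqrt_bound (a0 a1 b0 b1 p q : ℝ)
    (h : ((p : ℂ) + q * Complex.I) ^ 2 =
      ((a0 : ℂ) + b0 * Complex.I) ^ 2 + ((a1 : ℂ) + b1 * Complex.I) ^ 2) :
    p ^ 2 ≤ a0 ^ 2 + a1 ^ 2 ∧ q ^ 2 ≤ b0 ^ 2 + b1 ^ 2 := by
  have hre := congrArg Complex.re h
  have him := congrArg Complex.im h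
  simp [pow_two] at hre him
  have h1 : p ^ 2 - q ^ 2 = a0 ^ 2 + a1 ^ 2 - (b0 ^ 2 + b1 ^ 2) := by nlinarith [hre]
  have h2 : p * q = a0 * b0 + a1 * b1 := by nlinarith [him]
  have h3 : (p * q) ^ 2 ≤ (a0 ^ 2 + a1 ^ 2) * (b0 ^ 2 + b1 ^ 2) := by
    rw [h2]; nlinarith [sq_nonneg (a0 * b1 - a1 * b0)]
  have hq : q ^ 2 ≤ b0 ^ 2 + b1 ^ 2 := by
    by_contra hc
    push Not at hc
    have hp : a0 ^ 2 + a1 ^ 2 < p ^ 2 := by linarith
    have : (a0 ^ 2 + a1 ^ 2) * (b0 ^ 2 + b1 ^ 2) < p ^ 2 * q ^ 2 := by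
      have hA : 0 ≤ a0 ^ 2 + a1 ^ 2 := by positivity
      have hB : 0 ≤ b0 ^ 2 + b1 ^ 2 := by positivity
      nlinarith
    nlinarith
  exact ⟨by linarith, hq⟩

lemma norm_Q_le (n : ℕ) (X : Fin 4 → ℂ) {r : ℝ} (hr : 0 ≤ r)
    (hX : √((X 0).re ^ 2 + (X 1).re ^ 2 + (X 2).re ^ 2 + (X 3).re ^ 2) +
      √((X 0).im ^ 2 + (X 1).im ^ 2 + (X 2).im ^ 2 + (X 3).im ^ 2) ≤ r) :
    ‖Q n (X 0 ^ 2 + X 1 ^ 2) (X 2 ^ 2 + X 3 ^ 2)‖ ≤ r ^ (2 * n) := by
  obtain ⟨s, hs⟩ := IsAlgClosed.exists_pow_nat_eq (X 0 ^ 2 + X 1 ^ 2) (n := 2) (by norm_num)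
  obtain ⟨t, ht⟩ := IsAlgClosed.exists_pow_nat_eq (X 2 ^ 2 + X 3 ^ 2) (n := 2) (by norm_num)
  have hs' := sqrt_bound (X 0).re (X 1).re (X 0).im (X 1).im s.re s.im (by
    rw [Complex.re_add_im, Complex.re_add_im, Complex.re_add_im, hs])
  have ht' := sqrt_bound (X 2).re (X 3).re (X 2).im (X 3).im t.re t.im (by
    rw [Complex.re_add_im, Complex.re_add_im, Complex.re_add_im, ht])
  set A := (X 0).re ^ 2 + (X 1).re ^ 2 + (X 2).re ^ 2 + (X 3).re ^ 2 with hA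
  set B := (X 0).im ^ 2 + (X 1).im ^ 2 + (X 2).im ^ 2 + (X 3).im ^ 2 with hB
  have hA0 : 0 ≤ A := by rw [hA]; positivity
  have hB0 : 0 ≤ B := by rw [hB]; positivity
  have hp : s.re ^ 2 + t.re ^ 2 ≤ A := by linarith [hs'.1, ht'.1]
  have hq : s.im ^ 2 + t.im ^ 2 ≤ B := by linarith [hs'.2, ht'.2]
  have hsA := Real.sq_sqrt hA0
  have hsB := Real.sq_sqrt hB0
  have nA := Real.sqrt_nonneg A
  have nB := Real.sqrt_nonneg B
  have hr2 : (√A + √B) ^ 2 ≤ r ^ 2 := pow_le_pow_left₀ (by positivity) hX 2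
  -- the cross term
  have hcross : ∀ ε : ℝ, ε ^ 2 = 1 → ε * (s.im * t.re - s.re * t.im) ≤ √A * √B := by
    intro ε hε
    apply le_of_sq_le_sq _ (by positivity)
    have : (ε * (s.im * t.re - s.re * t.im)) ^ 2 = (s.im * t.re - s.re * t.im) ^ 2 := by
      rw [mul_pow, hε, one_mul]
    rw [this, mul_pow, hsA, hsB]
    have h1 : (s.im * t.re - s.re * t.im) ^ 2 ≤
        (s.re ^ 2 + t.re ^ 2) * (s.im ^ 2 + t.im ^ 2) := by
      nlinarith [sq_nonneg (s.im * s.re + t.re * t.im)]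
    exact h1.trans (mul_le_mul hp hq (by positivity) hA0)
  have hplus : ‖s + Complex.I * t‖ ≤ r := by
    apply le_of_sq_le_sq _ hr
    rw [← Complex.normSq_eq_norm_sq, Complex.normSq_apply]
    simp only [Complex.add_re, Complex.mul_re, Complex.I_re, Complex.I_im, Complex.add_im,
      Complex.mul_im]
    have := hcross 1 (by norm_num)
    nlinarith [this, hr2, hp, hq]
  have hminus : ‖s - Complex.I * t‖ ≤ r := by
    apply le_of_sq_le_sq _ hr
    rw [← Complex.normSq_eq_norm_sq, Complex.normSq_apply]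
    simp only [Complex.sub_re, Complex.mul_re, Complex.I_re, Complex.I_im, Complex.sub_im,
      Complex.mul_im]
    have := hcross (-1) (by norm_num)
    nlinarith [this, hr2, hp, hq]
  have h2 := two_mul_Q n s t
  rw [hs, ht] at h2
  have h3 : ‖(2 : ℂ) * Q n (X 0 ^ 2 + X 1 ^ 2) (X 2 ^ 2 + X 3 ^ 2)‖ ≤
      r ^ (2 * n) + r ^ (2 * n) := by
    rw [h2]
    refine (norm_add_le _ _).trans ?_
    rw [norm_pow, norm_pow]
    exact add_le_add (pow_le_pow_left₀ (norm_nonneg _) hplus _)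
      (pow_le_pow_left₀ (norm_nonneg _) hminus _)
  rw [norm_mul] at h3
  norm_num at h3
  linarith

end Pool.Agent.LibMPa29272s
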