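import Mathlib

/-!
# A calculus of derivative bounds at scale `1/M`

`Bd U M k C f`: on the set `U` the derivatives of `f` of order `j ≤ k` are at most `C M^j`.
-/

namespace Pool.Agent.Lib_MP_a29272_s

open Set Metric
open scoped ContDiff RealInnerProductSpace

variable {E F G : Type*} [NormedAddCommGroup E] [NormedSpace ℝ E] [NormedAddCommGroup F]
  [NormedSpace ℝ F] [NormedAddCommGroup G] [NormedSpace ℝ G]

/-- on `U` the derivatives of `f` of order `j ≤ k` are at most `C M^j` -/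
def Bd (U : Set E) (M : ℝ) (k : ℕ) (C : ℝ) (f : E → F) : Prop :=
  ∀ x ∈ U, ∀ j ≤ k, ‖iteratedFDeriv ℝ j f x‖ ≤ C * M ^ j

variable {U : Set E} {M C C' : ℝ} {k : ℕ} {f g : E → F}

theorem Bd.mono_const (hM : 0 ≤ M) (h : Bd U M k C f) (hC : C ≤ C') : Bd U M k C' f := by
  intro x hx j hj
  exact le_trans (h x hx j hj) (mul_le_mul_of_nonneg_right hC (pow_nonneg hM j))

theorem Bd.mono_order {k' : ℕ} (h : Bd U M k C f) (hk : k' ≤ k) : Bd U M k' C f :=
  fun x hx j hj => h x hx j (le_trans hj hk)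

theorem Bd.mono_set {U' : Set E} (h : Bd U M k C f) (hU : U' ⊆ U) : Bd U' M k C f :=
  fun x hx j hj => h x (hU hx) j hj

theorem Bd.add (hf : ContDiff ℝ ∞ f) (hg : ContDiff ℝ ∞ g) (h : Bd U M k C f)
    (h' : Bd U M k C' g) : Bd U M k (C + C') (fun x => f x + g x) := by
  intro x hx j hj
  have h1 : iteratedFDeriv ℝ j (fun x => f x + g x) x =
      iteratedFDeriv ℝ j f x + iteratedFDeriv ℝ j g x :=
    iteratedFDeriv_add_apply ((hf.of_le (by exact_mod_cast le_top)).contDiffAt)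
      ((hg.of_le (by exact_mod_cast le_top)).contDiffAt)
  rw [h1, add_mul]
  exact le_trans (norm_add_le _ _) (add_le_add (h x hx j hj) (h' x hx j hj))

theorem Bd.const_smul (hf : ContDiff ℝ ∞ f) (h : Bd U M k C f) (c : ℝ) :
    Bd U M k (|c| * C) (fun x => c • f x) := by
  intro x hx j hj
  have h1 : iteratedFDeriv ℝ j (fun x => c • f x) x = c • iteratedFDeriv ℝ j f x :=
    iteratedFDeriv_const_smul_apply ((hf.of_le (by exact_mod_cast le_top)).contDiffAt)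
  rw [h1, norm_smul, Real.norm_eq_abs, mul_assoc]
  exact mul_le_mul_of_nonneg_left (h x hx j hj) (abs_nonneg c)

theorem Bd.smul {a : E → ℝ} (hM : 0 ≤ M) (hC : 0 ≤ C) (hC' : 0 ≤ C') (ha : ContDiff ℝ ∞ a)
    (hf : ContDiff ℝ ∞ f) (h : Bd U M k C a) (h' : Bd U M k C' f) :
    Bd U M k (2 ^ k * (C * C')) (fun x => a x • f x) := by
  intro x hx j hj
  have h1 := norm_iteratedFDeriv_smul_le (ha.of_le (by exact_mod_cast le_top : (j : WithTop ℕ∞) ≤ ∞))
    (hf.of_le (by exact_mod_cast le_top : (j : WithTop ℕ∞) ≤ ∞)) x (n := j) le_rfl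
  refine le_trans h1 ?_
  have h2 : ∀ i ∈ Finset.range (j + 1), (j.choose i : ℝ) * ‖iteratedFDeriv ℝ i a x‖ *
      ‖iteratedFDeriv ℝ (j - i) f x‖ ≤ (j.choose i : ℝ) * (C * C' * M ^ j) := by
    intro i hi
    have hi' : i ≤ j := Nat.lt_succ_iff.1 (Finset.mem_range.1 hi)
    have e1 := h x hx i (le_trans hi' hj)
    have e2 := h' x hx (j - i) (le_trans (Nat.sub_le _ _) hj)
    have e3 : M ^ i * M ^ (j - i) = M ^ j := by rw [← pow_add, Nat.add_sub_cancel' hi']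
    calc (j.choose i : ℝ) * ‖iteratedFDeriv ℝ i a x‖ * ‖iteratedFDeriv ℝ (j - i) f x‖
        ≤ (j.choose i : ℝ) * (C * M ^ i) * (C' * M ^ (j - i)) := by
          gcongr
      _ = (j.choose i : ℝ) * (C * C' * (M ^ i * M ^ (j - i))) := by ring
      _ = _ := by rw [e3]
  refine le_trans (Finset.sum_le_sum h2) ?_
  rw [← Finset.sum_mul]
  have h3 : ∑ i ∈ Finset.range (j + 1), (j.choose i : ℝ) = 2 ^ j := by
    exact_mod_cast Nat.sum_range_choose j
  rw [h3]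
  have h4 : (2 : ℝ) ^ j ≤ 2 ^ k := pow_le_pow_right₀ (by norm_num) hj
  have h5 : 0 ≤ C * C' * M ^ j := mul_nonneg (mul_nonneg hC hC') (pow_nonneg hM j)
  calc (2 : ℝ) ^ j * (C * C' * M ^ j) ≤ 2 ^ k * (C * C' * M ^ j) :=
        mul_le_mul_of_nonneg_right h4 h5
    _ = _ := by ring

/-- a continuous linear map on a bounded set -/
theorem Bd.clm (hM : 1 ≤ M) (L : E →L[ℝ] F) {r : ℝ} (hr : 1 ≤ r) (hU : ∀ x ∈ U, ‖x‖ ≤ r) :
    Bd U M k (‖L‖ * r) L := by
  intro x hx j hj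
  have hM0 : (0 : ℝ) ≤ M := by linarith
  have hMj : (1 : ℝ) ≤ M ^ j := one_le_pow₀ hM
  rcases j with _ | _ | j
  · rw [norm_iteratedFDeriv_zero, pow_zero, mul_one]
    exact le_trans (L.le_opNorm x) (mul_le_mul_of_nonneg_left (hU x hx) (norm_nonneg _))
  · rw [norm_iteratedFDeriv_one, L.fderiv, zero_add, pow_one]
    calc ‖L‖ = ‖L‖ * 1 * 1 := by ring
      _ ≤ ‖L‖ * r * M := by gcongr
  · have : iteratedFDeriv ℝ (j + 1 + 1) (L : E → F) x = 0 := by
      have h1 := norm_iteratedFDeriv_fderiv (𝕜 := ℝ) (f := (L : E → F)) (x := x) (n := j + 1)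
      have h2 : fderiv ℝ (L : E → F) = fun _ => L := by
        funext y
        exact L.fderiv
      rw [h2, iteratedFDeriv_const_of_ne (by omega)] at h1
      simpa using h1.symm
    rw [this, norm_zero]
    positivity

/-- the derivative costs one factor `M` -/
theorem Bd.fderiv (h : Bd U M (k + 1) C f) : Bd U M k (C * M) (fderiv ℝ f) := by
  intro x hx j hj
  rw [norm_iteratedFDeriv_fderiv]
  have := h x hx (j + 1) (by omega)
  calc _ ≤ C * M ^ (j + 1) := this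
    _ = _ := by rw [pow_succ]; ring

/-- composition with a linear isometry equivalence -/
theorem Bd.isometry (e : F ≃ₗᵢ[ℝ] G) (h : Bd U M k C f) : Bd U M k C (fun x => e (f x)) := by
  intro x hx j hj
  have := e.norm_iteratedFDeriv_comp_left f x j
  have h2 : (fun x => e (f x)) = e ∘ f := rfl
  rw [h2, this]
  exact h x hx j hj

theorem Bd.eventuallyEq {U : Set E} {M C : ℝ} {k : ℕ} {f g : E → F} (hU : IsOpen U)
    (hfg : ∀ x ∈ U, f x = g x) (h : Bd U M k C f) : Bd U M k C g := by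
  intro x hx j hj
  have h1 : f =ᶠ[nhds x] g := Filter.eventuallyEq_of_mem (hU.mem_nhds hx) hfg
  rw [← (h1.iteratedFDeriv ℝ j).self_of_nhds]
  exact h x hx j hj

/-- composition of a function of one variable, bounded with its derivatives, with a function
whose derivatives satisfy `‖D^i‖ ≤ D^i` -/
theorem Bd.comp_real {χ : ℝ → ℝ} (hχ : ContDiff ℝ ∞ χ) {B : ℝ}
    (hB : ∀ t, ∀ j ≤ k, ‖iteratedFDeriv ℝ j χ t‖ ≤ B) {u : E → ℝ} (hu : ContDiff ℝ ∞ u) {c : ℝ}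
    (hc : 1 ≤ c) (hM : 0 ≤ M) (hD : ∀ x ∈ U, ∀ i, 1 ≤ i → i ≤ k → ‖iteratedFDeriv ℝ i u x‖ ≤ (c * M) ^ i) :
    Bd U M k (k.factorial * B * c ^ k) (fun x => χ (u x)) := by
  intro x hx j hj
  have hB0 : 0 ≤ B := le_trans (norm_nonneg _) (hB 0 0 (Nat.zero_le _))
  have h1 := norm_iteratedFDeriv_comp_le (𝕜 := ℝ) (g := χ) (f := u) (n := j) (N := ∞)
    hχ hu (by exact_mod_cast le_top) x (C := B) (D := c * M)
    (fun i hi => hB (u x) i (le_trans hi hj))
    (fun i h1i hi => hD x hx i h1i (le_trans hi hj))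
  refine le_trans h1 ?_
  have h2 : (j.factorial : ℝ) ≤ k.factorial := by exact_mod_cast Nat.factorial_le hj
  have h3 : c ^ j ≤ c ^ k := pow_le_pow_right₀ hc hj
  have hc0 : 0 ≤ c := by linarith
  calc (j.factorial : ℝ) * B * (c * M) ^ j = (j.factorial : ℝ) * B * c ^ j * M ^ j := by
        rw [mul_pow]; ring
    _ ≤ (k.factorial : ℝ) * B * c ^ k * M ^ j := by
        gcongr

section Inner

variable {H : Type*} [NormedAddCommGroup H] [InnerProductSpace ℝ H]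

/-- the derivatives of order `≥ 1` of `‖x‖²` -/
theorem normSq_iter_le {x : H} (hx : ‖x‖ ≤ 2) {i : ℕ} (hi : 1 ≤ i) :
    ‖iteratedFDeriv ℝ i (fun y : H => ‖y‖ ^ 2) x‖ ≤ 4 := by
  obtain ⟨j, rfl⟩ : ∃ j, i = j + 1 := ⟨i - 1, by omega⟩
  rw [← norm_iteratedFDeriv_fderiv, fderiv_norm_sq]
  have h1 : Bd (Metric.closedBall (0 : H) 2) 1 j (‖(2 : ℕ) • innerSL ℝ (E := H)‖ * 2)
      ((2 : ℕ) • innerSL ℝ (E := H) : H →L[ℝ] H →L[ℝ] ℝ) :=
    Bd.clm le_rfl _ (by norm_num) (fun y hy => by simpa using hy)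
  have h2 := h1 x (by simpa using hx) j le_rfl
  refine le_trans h2 ?_
  have h3 : ‖(2 : ℕ) • innerSL ℝ (E := H)‖ ≤ 2 := by
    refine ContinuousLinearMap.opNorm_le_bound _ (by norm_num) fun v => ?_
    have h4 : ((2 : ℕ) • innerSL ℝ (E := H)) v = innerSL ℝ v + innerSL ℝ v := by
      rw [two_nsmul]; rfl
    rw [h4]
    have h5 := norm_add_le (innerSL ℝ v) (innerSL ℝ v)
    rw [innerSL_apply_norm] at h5
    linarith
  rw [one_pow, mul_one]
  linarith

theorem Bd.normSq {U : Set H} {M : ℝ} {k : ℕ} (hM : 1 ≤ M) (hU : ∀ x ∈ U, ‖x‖ ≤ 2) :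
    Bd U M k 4 (fun y : H => ‖y‖ ^ 2) := by
  intro x hx j hj
  have hMj : (1 : ℝ) ≤ M ^ j := one_le_pow₀ hM
  rcases Nat.eq_zero_or_pos j with rfl | h
  · rw [norm_iteratedFDeriv_zero, pow_zero, mul_one, Real.norm_eq_abs, abs_of_nonneg (sq_nonneg _)]
    have := hU x hx
    nlinarith [norm_nonneg x]
  · have := normSq_iter_le (hU x hx) h
    linarith

theorem shell_fun_iter {M : ℝ} (hM : 1 ≤ M) {x : H} (hx : ‖x‖ ≤ 2) {i : ℕ} (hi : 1 ≤ i) :
    ‖iteratedFDeriv ℝ i (fun y : H => M * (‖y‖ ^ 2 - 1)) x‖ ≤ (4 * M) ^ i := by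
  have hf : ContDiff ℝ ∞ (fun y : H => ‖y‖ ^ 2) := contDiff_norm_sq ℝ
  have h1 : iteratedFDeriv ℝ i (fun y : H => M * (‖y‖ ^ 2 - 1)) x =
      M • iteratedFDeriv ℝ i (fun y : H => ‖y‖ ^ 2 - 1) x := by
    have := iteratedFDeriv_const_smul_apply (𝕜 := ℝ) (i := i) (a := M)
      (f := fun y : H => ‖y‖ ^ 2 - 1) (x := x)
      ((hf.sub contDiff_const).of_le (by exact_mod_cast le_top)).contDiffAt
    exact this
  have h2 : iteratedFDeriv ℝ i (fun y : H => ‖y‖ ^ 2 - 1) x =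
      iteratedFDeriv ℝ i (fun y : H => ‖y‖ ^ 2) x := by
    have h3 : (fun y : H => ‖y‖ ^ 2 - 1) = (fun y : H => ‖y‖ ^ 2 + (-1 : ℝ)) := by
      funext y; ring
    rw [h3]
    have := iteratedFDeriv_add_apply (𝕜 := ℝ) (i := i) (f := fun y : H => ‖y‖ ^ 2)
      (g := fun _ : H => (-1 : ℝ)) (x := x)
      (hf.of_le (by exact_mod_cast le_top)).contDiffAt contDiff_const.contDiffAt
    have h4 : iteratedFDeriv ℝ i (fun _ : H => (-1 : ℝ)) = 0 :=
      iteratedFDeriv_const_of_ne (by omega) _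
    rw [h4, Pi.zero_apply, add_zero] at this
    exact this
  rw [h1, h2, norm_smul, Real.norm_eq_abs, abs_of_nonneg (by linarith)]
  have h5 := normSq_iter_le hx hi
  calc M * ‖iteratedFDeriv ℝ i (fun y : H => ‖y‖ ^ 2) x‖ ≤ M * 4 := by gcongr
    _ = (4 * M) ^ 1 := by ring
    _ ≤ (4 * M) ^ i := pow_le_pow_right₀ (by linarith) hi

/-- the cut-off at scale `1/M` -/
theorem Bd.shell {U : Set H} {M : ℝ} {k : ℕ} (hM : 1 ≤ M) (hU : ∀ x ∈ U, ‖x‖ ≤ 2)
    {χ : ℝ → ℝ} (hχ : ContDiff ℝ ∞ χ) {B : ℝ} (hB : ∀ t, ∀ j ≤ k, ‖iteratedFDeriv ℝ j χ t‖ ≤ B) :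
    Bd U M k (k.factorial * B * 4 ^ k) (fun x : H => χ (M * (‖x‖ ^ 2 - 1))) :=
  Bd.comp_real hχ hB (contDiff_const.mul ((contDiff_norm_sq ℝ).sub contDiff_const))
    (by norm_num) (by linarith) (fun x hx i hi _ => shell_fun_iter hM (hU x hx) hi)

variable [CompleteSpace H]

theorem contDiff_gradient {P : H → ℝ} (hP : ContDiff ℝ ∞ P) : ContDiff ℝ ∞ (gradient P) := by
  have h1 : ContDiff ℝ ∞ (fderiv ℝ P) := hP.fderiv_right (m := ∞) (by exact_mod_cast le_top)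
  exact (InnerProductSpace.toDual ℝ H).symm.contDiff.comp h1

theorem Bd.gradient {U : Set H} {M C : ℝ} {k : ℕ} {P : H → ℝ} (h : Bd U M (k + 1) C P) :
    Bd U M k (C * M) (gradient P) :=
  (h.fderiv).isometry (InnerProductSpace.toDual ℝ H).symm

end Inner

end Pool.Agent.Lib_MP_a29272_s
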